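import Pool.Agent.Y882.Cum

/-!
# Between Chen's theorem and Goldbach's conjecture: the number of exceptions

Chen's method represents every large even `N` as a prime plus a number without prime factors up to `N ^ u` for
`u < 1 / 4`; `u = 1 / 2` is Goldbach's problem. For every `u < 1 / 2`, `0 < θ ≤ 1` and `ε > 0`: all even `N ≤ X` with
at most `C X ^ (max (1 - θ) (4 u - θ) + ε)` exceptions have at least `δ 𝔖(N) N ^ θ / log ^ 2 N` primes `p < N / 2` of
size `N ^ θ` such that all prime factors of `N - p` are larger than `N ^ u` (so there are fewer than `1 / u` of them).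
For `θ = 1` and `1 / 3 ≤ u < 1 / 2`: all even `N ≤ X` with at most `C X ^ (4 u - 1 + ε)` exceptions are sums of a prime
and a different number that is a prime or the product of two primes larger than `N ^ u`.
-/

set_option autoImplicit false

open Finset Filter

namespace Pool.Agent.Results.MP_7b7e48_nt.BetweenChenAndGoldbach

/-- the variable part of the singular series of the Goldbach problem -/
noncomputable def sing (N : ℕ) : ℝ :=
  ∏ p ∈ N.primeFactors.erase 2, (((p : ℝ) - 1) / ((p : ℝ) - 2))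

open Classical in
/-- The number of the primes `p` with `N ^ θ / 8 < p < N ^ θ` and `2 p < N` such that all prime factors of `N - p` are
larger than `N ^ u`, and there are (with multiplicity) fewer than `1 / u` of them. -/
noncomputable def decomps (θ u : ℝ) (N : ℕ) : ℕ :=
  ((range N).filter (fun p : ℕ => p.Prime ∧ (N : ℝ) ^ θ / 8 < p ∧ (p : ℝ) < (N : ℝ) ^ θ ∧ 2 * p < N ∧
    (∀ q : ℕ, q.Prime → q ∣ (N - p) → (N : ℝ) ^ u < q) ∧
    ((N - p).primeFactorsList.length : ℝ) * u < 1)).card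

lemma pow_le_prod (a : ℝ) (ha : 0 ≤ a) : ∀ l : List ℕ, (∀ q ∈ l, a ≤ (q : ℝ)) → a ^ l.length ≤ (l.prod : ℝ)
  | [], _ => by simp
  | q :: l, h => by
    have h1 := pow_le_prod a ha l (fun q' hq' => h q' (List.mem_cons_of_mem _ hq'))
    have h2 := h q List.mem_cons_self
    rw [List.length_cons, List.prod_cons, pow_succ', Nat.cast_mul]
    exact mul_le_mul h2 h1 (by positivity) (ha.trans h2)

lemma few (u : ℝ) (N m : ℕ) (hN : 2 ≤ N) (hm : 0 < m) (hmN : m < N)
    (h : ∀ q : ℕ, q.Prime → q ∣ m → (N : ℝ) ^ u < q) : (m.primeFactorsList.length : ℝ) * u < 1 := by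
  have hNr : (1 : ℝ) < N := by exact_mod_cast hN
  have h1 := pow_le_prod ((N : ℝ) ^ u) (by positivity) m.primeFactorsList (fun q hq =>
    (h q (Nat.prime_of_mem_primeFactorsList hq) (Nat.dvd_of_mem_primeFactorsList hq)).le)
  have h2 : (m.primeFactorsList.prod : ℝ) = m := by exact_mod_cast Nat.prod_primeFactorsList hm.ne'
  rw [h2] at h1
  have h3 : (m : ℝ) < N := by exact_mod_cast hmN
  have h4 : (N : ℝ) ^ (u * m.primeFactorsList.length) < (N : ℝ) ^ (1 : ℝ) := by
    rw [Real.rpow_mul (by linarith), Real.rpow_natCast, Real.rpow_one]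
    linarith
  have h5 := (Real.rpow_lt_rpow_left_iff hNr).1 h4
  linarith

open Classical in
theorem main (θ u ε : ℝ) (hθ0 : 0 < θ) (hθ1 : θ ≤ 1) (hu : 0 < u) (hu2 : u < 1 / 2) (hε : 0 < ε) :
    ∃ δ C : ℝ, 0 < δ ∧ 0 < C ∧ ∀ X : ℕ, 1 ≤ X →
      (((Icc 1 X).filter (fun N => Even N ∧
        (decomps θ u N : ℝ) < δ * sing N * ((N : ℝ) ^ θ / Real.log N ^ 2))).card : ℝ) ≤
      C * (X : ℝ) ^ (max (1 - θ) (4 * u - θ) + ε) := by
  set η : ℝ := min (ε / 4) (θ / 2) with hη
  have hη0 : 0 < η := lt_min (by linarith) (by linarith)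
  have hηε : η ≤ ε / 4 := min_le_left _ _
  have hηθ : η ≤ θ / 2 := min_le_right _ _
  obtain ⟨δ, hδ, Y0, H⟩ := Pool.Agent.Y882.dyadic (θ - η) u (ε / 2) (by linarith) (by linarith) hu hu2
    (by linarith)
  have ev : ∀ᶠ Y : ℕ in atTop, (2 : ℝ) ≤ (Y : ℝ) ^ η :=
    tendsto_natCast_atTop_atTop.eventually ((tendsto_rpow_atTop hη0).eventually_ge_atTop _)
  obtain ⟨Y1, HY1⟩ := eventually_atTop.1 ev
  have hexp : 0 < max (1 - θ) (4 * u - θ) + ε := by
    have := le_max_left (1 - θ) (4 * u - θ)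
    linarith
  obtain ⟨C, hC, hcum⟩ := Pool.Agent.Y882.cum (fun N => Even N ∧
    (decomps θ u N : ℝ) < δ / 4 * sing N * ((N : ℝ) ^ θ / Real.log N ^ 2))
    (max (1 - θ) (4 * u - θ) + ε) hexp (max (max Y0 Y1) 64) (by
    intro Y hY
    have hY0 : Y0 ≤ Y := (le_max_left _ _).trans ((le_max_left _ _).trans hY)
    have hY1 : Y1 ≤ Y := (le_max_right _ _).trans ((le_max_left _ _).trans hY)
    have hY3 : 64 ≤ Y := (le_max_right _ _).trans hY
    have hYr : (64 : ℝ) ≤ Y := by exact_mod_cast hY3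
    have hYp : (0 : ℝ) < Y := by linarith
    have hlY : 0 < Real.log Y := Real.log_pos (by linarith)
    set x : ℝ := (Y : ℝ) ^ θ / 2 with hx
    have hYθ : (0 : ℝ) < (Y : ℝ) ^ θ := by positivity
    have hYθ1 : (Y : ℝ) ^ θ ≤ Y := by
      calc (Y : ℝ) ^ θ ≤ (Y : ℝ) ^ (1 : ℝ) := Real.rpow_le_rpow_of_exponent_le (by linarith) hθ1
        _ = Y := Real.rpow_one _
    have hx1 : (Y : ℝ) ^ (θ - η) ≤ x := by
      have h2 := HY1 Y hY1
      have h3 : (Y : ℝ) ^ (θ - η) * (Y : ℝ) ^ η = (Y : ℝ) ^ θ := by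
        rw [← Real.rpow_add hYp]
        congr 1
        ring
      have h4 : (0 : ℝ) < (Y : ℝ) ^ (θ - η) := by positivity
      rw [hx, ← h3]
      nlinarith
    have h1 := H Y hY0 x hx1 (by linarith)
      ((Ioc Y (2 * Y)).filter (fun N => Even N ∧
        (decomps θ u N : ℝ) < δ / 4 * sing N * ((N : ℝ) ^ θ / Real.log N ^ 2))) ?_
    · refine h1.trans (Real.rpow_le_rpow_of_exponent_le (by linarith) ?_)
      have e1 : 1 - (θ - η) ≤ max (1 - θ) (4 * u - θ) + η := by
        have := le_max_left (1 - θ) (4 * u - θ)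
        linarith
      have e2 : 4 * u - (θ - η) ≤ max (1 - θ) (4 * u - θ) + η := by
        have := le_max_right (1 - θ) (4 * u - θ)
        linarith
      have := max_le e1 e2
      linarith
    · intro n hn
      rw [mem_filter, mem_Ioc] at hn
      obtain ⟨⟨h2, h3⟩, h4, h5⟩ := hn
      refine ⟨h2, h3, h4, ?_⟩
      have h12 : (n : ℝ) ≤ 2 * Y := by exact_mod_cast h3
      have h13 : (Y : ℝ) ≤ n := by exact_mod_cast h2.le
      have hnp : (0 : ℝ) < n := by linarith
      have pow2 : ∀ v : ℝ, 0 < v → v ≤ 1 → (n : ℝ) ^ v ≤ 2 * (Y : ℝ) ^ v := by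
        intro v hv hv1
        calc (n : ℝ) ^ v ≤ (2 * (Y : ℝ)) ^ v := Real.rpow_le_rpow (by positivity) h12 hv.le
          _ = 2 ^ v * (Y : ℝ) ^ v := Real.mul_rpow (by norm_num) (by positivity)
          _ ≤ 2 * (Y : ℝ) ^ v := by
              apply mul_le_mul_of_nonneg_right _ (by positivity)
              calc (2 : ℝ) ^ v ≤ 2 ^ (1 : ℝ) :=
                    Real.rpow_le_rpow_of_exponent_le (by norm_num) (by linarith)
                _ = 2 := Real.rpow_one _
      have hnθ := pow2 θ hθ0 hθ1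
      have hnθ' : (Y : ℝ) ^ θ ≤ (n : ℝ) ^ θ := Real.rpow_le_rpow hYp.le h13 hθ0.le
      have h6 : Pool.Agent.Y882.cnt x (3 * (Y : ℝ) ^ u) n ≤ decomps θ u n := by
        unfold Pool.Agent.Y882.cnt decomps
        apply card_le_card
        intro p hp
        rw [mem_filter] at hp ⊢
        obtain ⟨-, h8, h8', h9, h10⟩ := hp
        have h11 : 2 * p < Y := by
          have : 2 * (p : ℝ) < Y := by linarith
          exact_mod_cast this
        have hrough : ∀ q : ℕ, q.Prime → q ∣ (n - p) → (n : ℝ) ^ u < q := by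
          intro q hq hqn
          refine lt_of_lt_of_le ?_ (h10 q hq hqn)
          have hYu : (0 : ℝ) < (Y : ℝ) ^ u := by positivity
          have := pow2 u hu (by linarith)
          linarith
        exact ⟨mem_range.2 (by omega), h8, by linarith, by linarith, by omega, hrough,
          few u n (n - p) (by omega) (by omega) (by have := h8.pos; omega) hrough⟩
      have h7 : (Pool.Agent.Y882.cnt x (3 * (Y : ℝ) ^ u) n : ℝ) ≤ decomps θ u n := by
        exact_mod_cast h6
      refine h7.trans_lt (h5.trans_le ?_)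
      have hs : Pool.Agent.Y882.sgs n = sing n := rfl
      rw [hs]
      have hs1 : 1 ≤ sing n := by rw [← hs]; exact Pool.Agent.Y882.one_le_sgs n
      have h14 : Real.log Y ≤ Real.log n := Real.log_le_log (by linarith) h13
      have h15 : (n : ℝ) ^ θ / Real.log n ^ 2 ≤ 4 * x / Real.log Y ^ 2 := by
        apply div_le_div₀ (by positivity) (by linarith) (by positivity)
        exact pow_le_pow_left₀ hlY.le h14 2
      calc δ / 4 * sing n * ((n : ℝ) ^ θ / Real.log n ^ 2) ≤
          δ / 4 * sing n * (4 * x / Real.log Y ^ 2) :=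
            mul_le_mul_of_nonneg_left h15 (by positivity)
        _ = δ * x / Real.log Y ^ 2 * sing n := by ring)
  exact ⟨δ / 4, C, by linarith, hC, fun X hX => hcum X hX⟩

open Classical in
/-- **Between Chen's theorem and Goldbach's conjecture.** -/
theorem result :
    (∀ θ u ε : ℝ, 0 < θ → θ ≤ 1 → 0 < u → u < 1 / 2 → 0 < ε → ∃ δ C : ℝ, 0 < δ ∧ 0 < C ∧ ∀ X : ℕ, 1 ≤ X →
      (((Icc 1 X).filter (fun N => Even N ∧
        (decomps θ u N : ℝ) < δ * sing N * ((N : ℝ) ^ θ / Real.log N ^ 2))).card : ℝ) ≤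
      C * (X : ℝ) ^ (max (1 - θ) (4 * u - θ) + ε)) ∧
    (∀ u ε : ℝ, 1 / 3 ≤ u → u < 1 / 2 → 0 < ε → ∃ C : ℝ, 0 < C ∧ ∀ X : ℕ, 1 ≤ X →
      (((Icc 1 X).filter (fun N => Even N ∧ ¬ ∃ p m : ℕ, p.Prime ∧ p ≠ m ∧ N = p + m ∧
        (m.Prime ∨ ∃ q r : ℕ, q.Prime ∧ r.Prime ∧ m = q * r ∧ (N : ℝ) ^ u < q ∧ (N : ℝ) ^ u < r))).card : ℝ) ≤
      C * (X : ℝ) ^ (4 * u - 1 + ε)) := by
  refine ⟨main, ?_⟩
  intro u ε hu hu2 hε
  obtain ⟨δ, C, hδ, hC, h⟩ := main 1 u ε one_pos le_rfl (by linarith) hu2 hε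
  refine ⟨C, hC, fun X hX => ?_⟩
  have h1 := h X hX
  have e : max (1 - 1) (4 * u - 1) + ε = 4 * u - 1 + ε := by
    rw [max_eq_right (by linarith)]
  rw [e] at h1
  refine le_trans ?_ h1
  have hsub : (Icc 1 X).filter (fun N => Even N ∧ ¬ ∃ p m : ℕ, p.Prime ∧ p ≠ m ∧ N = p + m ∧
        (m.Prime ∨ ∃ q r : ℕ, q.Prime ∧ r.Prime ∧ m = q * r ∧ (N : ℝ) ^ u < q ∧ (N : ℝ) ^ u < r)) ⊆
      (Icc 1 X).filter (fun N => Even N ∧
        (decomps 1 u N : ℝ) < δ * sing N * ((N : ℝ) ^ (1 : ℝ) / Real.log N ^ 2)) := by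
    intro N hN
    rw [mem_filter, mem_Icc] at hN ⊢
    obtain ⟨hNX, hev, hno⟩ := hN
    refine ⟨hNX, hev, ?_⟩
    by_contra hcon
    push Not at hcon
    apply hno
    have hN2 : 2 ≤ N := by
      obtain ⟨k, hk⟩ := hev
      omega
    have hNr : (2 : ℝ) ≤ N := by exact_mod_cast hN2
    have hlog : 0 < Real.log N := Real.log_pos (by linarith)
    have hs1 : 1 ≤ sing N := Pool.Agent.Y882.one_le_sgs N
    have hpos : (0 : ℝ) < decomps 1 u N := by
      refine lt_of_lt_of_le ?_ hcon
      have : (0 : ℝ) < (N : ℝ) ^ (1 : ℝ) / Real.log N ^ 2 := by positivity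
      have : 0 < sing N := by linarith
      positivity
    have hpos' : 0 < decomps 1 u N := by exact_mod_cast hpos
    unfold decomps at hpos'
    obtain ⟨p, hp⟩ := card_pos.1 hpos'
    rw [mem_filter] at hp
    obtain ⟨hpN, hpp, -, -, h2p, hrough, hlen⟩ := hp
    rw [mem_range] at hpN
    refine ⟨p, N - p, hpp, by omega, by omega, ?_⟩
    have hm2 : 2 ≤ N - p := by
      have := hpp.two_le
      omega
    have hlen2 : (N - p).primeFactorsList.length < 3 := by
      have h5 : ((N - p).primeFactorsList.length : ℝ) < 3 := by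
        by_contra h6
        push Not at h6
        nlinarith
      exact_mod_cast h5
    have hprod := Nat.prod_primeFactorsList (by omega : N - p ≠ 0)
    have hpr : ∀ q ∈ (N - p).primeFactorsList, q.Prime := fun q hq => Nat.prime_of_mem_primeFactorsList hq
    have hdv : ∀ q ∈ (N - p).primeFactorsList, (N : ℝ) ^ u < q := fun q hq =>
      hrough q (hpr q hq) (Nat.dvd_of_mem_primeFactorsList hq)
    generalize hl : (N - p).primeFactorsList = l at hprod hpr hdv hlen2
    match l, hprod, hpr, hdv, hlen2 with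
    | [], hprod, _, _, _ =>
      exfalso
      rw [List.prod_nil] at hprod
      omega
    | [q], hprod, hpr, _, _ =>
      left
      rw [List.prod_singleton] at hprod
      rw [← hprod]
      exact hpr q List.mem_cons_self
    | [q, r], hprod, hpr, hdv, _ =>
      right
      rw [List.prod_cons, List.prod_singleton] at hprod
      exact ⟨q, r, hpr q (by simp), hpr r (by simp), hprod.symm, hdv q (by simp), hdv r (by simp)⟩
    | _ :: _ :: _ :: _, _, _, _, h =>
      exfalso
      simp only [List.length_cons] at h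
      omega
  exact_mod_cast card_le_card hsub

end Pool.Agent.Results.MP_7b7e48_nt.BetweenChenAndGoldbach
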