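import Pool.Agent.Q148.FN.Comb

/-!
# Chen's theorem with large prime factors, outside a polylogarithmic exceptional set

For all even `n ≤ X` with at most `K (log X)^B` exceptions there are at least `𝔖(n) n / (200 log² n)` primes
`p < n` such that `n - p` is a prime or a product of two primes and all its prime factors are at least `n ^ 0.258`;
and at least `9 𝔖(n) n / (100 log² n)` primes `p < n` such that `n - p` is a prime or a product of two primes and
all its prime factors are at least `n ^ (1 / 4)`.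
-/

set_option autoImplicit false

namespace Pool.Agent.Results.MP_7b7e48_nt.LargeFactorsFewExceptions

open Finset

/-- the constant of the twin primes: the infimum (the limit) of the decreasing products
`∏_{3 ≤ p ≤ z} (1 - 1/(p-1)²)` -/
noncomputable def twin : ℝ := ⨅ z : ℕ, ∏ p ∈ (Icc 3 z).filter Nat.Prime, (1 - 1 / ((p : ℝ) - 1) ^ 2)

/-- the singular series of an even number: `2 C₂ ∏_{p ∣ n, p > 2} (p - 1)/(p - 2)` -/
noncomputable def sing (n : ℕ) : ℝ :=
  2 * twin * ∏ p ∈ n.primeFactors.filter (fun p => 2 < p), ((p : ℝ) - 1) / ((p : ℝ) - 2)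

open Classical in
/-- the number of the primes `p < n` such that `n - p` is a prime or a product of two primes (not necessarily
different) and all the prime factors of `n - p` are at least `z` -/
noncomputable def chen (n : ℕ) (z : ℝ) : ℝ :=
  (((range n).filter (fun p => p.Prime ∧ ((n - p).Prime ∨ ∃ q r : ℕ, q.Prime ∧ r.Prime ∧ n - p = q * r) ∧
    ∀ q : ℕ, q.Prime → q ∣ n - p → z ≤ q)).card : ℝ)

theorem chen_eq (n : ℕ) (z : ℝ) : chen n z = Pool.Agent.Q148.FN.ch n z := by
  classical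
  unfold chen Pool.Agent.Q148.FN.ch
  congr 2
  ext p
  rw [mem_filter, mem_filter, mem_range, Pool.Agent.Q148.BA.mem_PP]
  constructor
  · rintro ⟨h1, h2, h3, h4⟩
    exact ⟨⟨h2, h1.le⟩, h1, h3, h4⟩
  · rintro ⟨⟨h2, _⟩, h1, h3, h4⟩
    exact ⟨h1, h2, h3, h4⟩

theorem result : ∃ (B : ℕ) (K : ℝ), ∀ X : ℕ, 3 ≤ X → ∃ Ex : Finset ℕ, (Ex.card : ℝ) ≤ K * Real.log X ^ B ∧
    ∀ n : ℕ, 1 ≤ n → n ≤ X → Even n → n ∉ Ex →
      1 / 200 * (sing n * n / Real.log n ^ 2) ≤ chen n ((n : ℝ) ^ (129 / 500 : ℝ)) ∧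
      9 / 100 * (sing n * n / Real.log n ^ 2) ≤ chen n ((n : ℝ) ^ (1 / 4 : ℝ)) := by
  classical
  obtain ⟨B1, K1, H1⟩ := Pool.Agent.Q148.FN.chenLarge (129 / 500) (1 / 1000) (by norm_num) (by norm_num)
    (by norm_num) (by norm_num)
  obtain ⟨B2, K2, H2⟩ := Pool.Agent.Q148.FN.chenLarge (1 / 4) (1 / 1000) (by norm_num) (by norm_num)
    (by norm_num) (by norm_num)
  refine ⟨B1 + B2, max K1 0 + max K2 0, fun X hX => ⟨(Icc 1 X).filter (fun n : ℕ => Even n ∧
    ¬ (1 / 200 * (sing n * n / Real.log n ^ 2) ≤ chen n ((n : ℝ) ^ (129 / 500 : ℝ)) ∧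
      9 / 100 * (sing n * n / Real.log n ^ 2) ≤ chen n ((n : ℝ) ^ (1 / 4 : ℝ)))), ?_, fun n h1 h2 h3 h4 => ?_⟩⟩
  · have hXr : (3 : ℝ) ≤ X := by exact_mod_cast hX
    have hlX : 1 ≤ Real.log X := by
      rw [Real.le_log_iff_exp_le (by linarith)]
      linarith [Real.exp_one_lt_d9]
    have hsub : (Icc 1 X).filter (fun n : ℕ => Even n ∧ ¬ (1 / 200 * (sing n * n / Real.log n ^ 2) ≤
        chen n ((n : ℝ) ^ (129 / 500 : ℝ)) ∧
          9 / 100 * (sing n * n / Real.log n ^ 2) ≤ chen n ((n : ℝ) ^ (1 / 4 : ℝ)))) ⊆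
        ((Icc 1 X).filter (fun n : ℕ => Even n ∧
          ¬ (18 / 5 * Real.log (5 / (9 * (129 / 500 : ℝ)) - 1) - 401 / 100 * Pool.Agent.Q148.FN.II (129 / 500) -
            1 / 1000) * (sing n * n / Real.log n ^ 2) ≤
            Pool.Agent.Q148.FN.ch n ((n : ℝ) ^ (129 / 500 : ℝ)))) ∪
        ((Icc 1 X).filter (fun n : ℕ => Even n ∧
          ¬ (18 / 5 * Real.log (5 / (9 * (1 / 4 : ℝ)) - 1) - 401 / 100 * Pool.Agent.Q148.FN.II (1 / 4) -
            1 / 1000) * (sing n * n / Real.log n ^ 2) ≤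
            Pool.Agent.Q148.FN.ch n ((n : ℝ) ^ (1 / 4 : ℝ)))) := by
      intro n hn
      rw [mem_filter] at hn
      obtain ⟨g1, g2, g3⟩ := hn
      rw [mem_union, mem_filter, mem_filter]
      by_contra hc
      push Not at hc
      have c1 := hc.1 g1 g2
      have c2 := hc.2 g1 g2
      apply g3
      rw [chen_eq, chen_eq]
      have hS0 : 0 ≤ sing n * n / Real.log n ^ 2 := by
        have : 1 ≤ sing n := Pool.Agent.Q148.BA.sing_ge n
        positivity
      have n1 := Pool.Agent.Q148.FN.num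
      have n2 := Pool.Agent.Q148.FN.num4
      constructor
      · exact (mul_le_mul_of_nonneg_right (by linarith) hS0).trans c1
      · exact (mul_le_mul_of_nonneg_right (by linarith) hS0).trans c2
    have h1 := (card_le_card hsub).trans (card_union_le _ _)
    have h2 := H1 X hX
    have h3 := H2 X hX
    have h4 : K1 * Real.log X ^ B1 ≤ max K1 0 * Real.log X ^ (B1 + B2) :=
      mul_le_mul (le_max_left _ _) (pow_le_pow_right₀ hlX (by omega)) (by positivity) (le_max_right _ _)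
    have h5 : K2 * Real.log X ^ B2 ≤ max K2 0 * Real.log X ^ (B1 + B2) :=
      mul_le_mul (le_max_left _ _) (pow_le_pow_right₀ hlX (by omega)) (by positivity) (le_max_right _ _)
    rw [add_mul]
    refine le_trans (Nat.cast_le.2 h1) ?_
    rw [Nat.cast_add]
    exact (add_le_add h2 h3).trans (add_le_add h4 h5)
  · by_contra hc
    exact h4 (mem_filter.2 ⟨mem_Icc.2 ⟨h1, h2⟩, h3, hc⟩)

end Pool.Agent.Results.MP_7b7e48_nt.LargeFactorsFewExceptions
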