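import Pool.Agent.Q236.LG.ParL

set_option autoImplicit false

/-!
# Goldbach's conjecture with the summands in short pieces of polynomial sequences

Let `P_i = F_i + c_{i0} + c_{i1} x + … + c_{i,d-1} x^(d-1)`, `i = 1, …, m`, with ARBITRARY `F_i ∈ ℤ[x]` of bounded degree
and `m ≤ log^E X`, where the coefficients `c_{ij}` run independently through the integers of intervals of length at
least `X / log^C X`, and let `n` run through the integers of an interval of length at least `X / log^C X`.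

If the number `d` of the random coefficients is large enough in terms of `M, B, E, η`, then for all but a proportion
`log^(-B) X` of the families `(P_1, …, P_m)`, for all but a proportion `log^(-B) X` of the integers `n`, the following
holds AT THE SAME TIME for all sets `I` and `S` of members of the family with `e = |I| + |S| ≤ M`, for all progressions
`b + q k` and all intervals `(a, a + h]` with `b + q (a + h) ≤ log^E X` and `h ≥ log^(e + η) X`:

* the number of the `k` in `(a, a + h]` such that all the `P_i(b + q k)`, `i ∈ I`, and all the `n - P_i(b + q k)`,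
  `i ∈ S`, are PRIME is `(1 + O*(ε)) 𝔖 h / log^e X` with the singular series `𝔖` of this system;
* without a fixed prime divisor there is such a `k`.

For `I = S = {i}`: for almost all polynomials `P` almost all even `n` are sums of two primes `P(k) + q` with `k` in
ANY short interval of ANY progression, with the asymptotic number of such decompositions; for `I = S = {1, …, g}`: the
simultaneous decompositions `n = P_1(k) + q_1 = … = P_g(k) + q_g` for the same `k`.
-/

namespace Pool.Agent.Results.MP_7b7e48_nt.PolynomialSummands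

open Finset Filter

/-- The value at `k` of `F + c_0 + c_1 x + … + c_{d-1} x^(d-1)`. -/
noncomputable def value {d : ℕ} (F : Polynomial ℤ) (c : Fin d → ℤ) (k : ℕ) : ℤ :=
  F.eval (k : ℤ) + ∑ j, c j * (k : ℤ) ^ (j : ℕ)

/-- The arrays of coefficients `Z i j < c i j ≤ Z i j + Y i j`. -/
noncomputable def Arrays {m d : ℕ} (Z : Fin m → Fin d → ℤ) (Y : Fin m → Fin d → ℕ) : Finset (Fin m → Fin d → ℤ) :=
  Fintype.piFinset fun i => Fintype.piFinset fun j => Ioc (Z i j) (Z i j + Y i j)

open Classical in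
/-- The number of the `k` with `a < k ≤ a + h` such that all the `P_i(b + q k)`, `i ∈ I`, and all the `n - P_i(b + q k)`,
`i ∈ S`, are primes. -/
noncomputable def primePoints {m d : ℕ} (F : Fin m → Polynomial ℤ) (c : Fin m → Fin d → ℤ) (n : ℤ) (I S : Finset (Fin m))
    (b q a h : ℕ) : ℕ :=
  ((Ioc a (a + h)).filter (fun k => (∀ i ∈ I, (value (F i) (c i) (b + q * k)).toNat.Prime) ∧
    ∀ i ∈ S, (n - value (F i) (c i) (b + q * k)).toNat.Prime)).card

open Classical in
/-- The number of the residues `k` modulo `p` such that `p` divides one of the `P_i(b + q k)`, `i ∈ I`, or one of the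
`n - P_i(b + q k)`, `i ∈ S`. -/
noncomputable def omega {m d : ℕ} (F : Fin m → Polynomial ℤ) (c : Fin m → Fin d → ℤ) (n : ℤ) (I S : Finset (Fin m))
    (b q p : ℕ) : ℕ :=
  ((range p).filter (fun k => (∃ i ∈ I, (p : ℤ) ∣ value (F i) (c i) (b + q * k)) ∨
    ∃ i ∈ S, (p : ℤ) ∣ n - value (F i) (c i) (b + q * k))).card

/-- The singular series: the product of `(1 - ω(p) / p) / (1 - 1 / p)^(|I| + |S|)` over the primes `p ≤ z`. -/
noncomputable def singular {m d : ℕ} (F : Fin m → Polynomial ℤ) (c : Fin m → Fin d → ℤ) (n : ℤ) (I S : Finset (Fin m))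
    (b q z : ℕ) : ℝ :=
  ∏ p ∈ (Icc 1 z).filter Nat.Prime, ((1 - (omega F c n I S b q p : ℝ) / p) / (1 - 1 / (p : ℝ)) ^ (I.card + S.card))

/-- For `1 ≤ k ≤ log^E X`, all arrays and all `n` with `z' < n ≤ z' + y'`, the values `P_i(k)`, `i ∈ I`, and
`n - P_i(k)`, `i ∈ S`, are between `X / log^C X` and `X log^C X`. -/
def Sizes (C E X : ℕ) {m d : ℕ} (F : Fin m → Polynomial ℤ) (Z : Fin m → Fin d → ℤ) (Y : Fin m → Fin d → ℕ) (z' : ℤ) (y' : ℕ)
    (I S : Finset (Fin m)) : Prop :=
  ∀ c ∈ Arrays Z Y, ∀ n ∈ Ioc z' (z' + y'), ∀ k : ℕ, 1 ≤ k → (k : ℝ) ≤ Real.log X ^ E →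
    (∀ i ∈ I, (X : ℝ) / Real.log X ^ C ≤ value (F i) (c i) k ∧ (value (F i) (c i) k : ℝ) ≤ X * Real.log X ^ C) ∧
    ∀ i ∈ S, (X : ℝ) / Real.log X ^ C ≤ (n - value (F i) (c i) k : ℤ) ∧
      ((n - value (F i) (c i) k : ℤ) : ℝ) ≤ X * Real.log X ^ C

/-- The asymptotic formula and the existence of a prime point for the integer `n` and all `I, S` with
`1 ≤ |I| + |S| ≤ M`, all intervals of length at least `log^(|I| + |S| + η) X` and all progressions below `log^E X`. -/
def Regular (M C E : ℕ) (η ε : ℝ) (z X : ℕ) {m d : ℕ} (F : Fin m → Polynomial ℤ) (Z : Fin m → Fin d → ℤ)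
    (Y : Fin m → Fin d → ℕ) (z' : ℤ) (y' : ℕ) (c : Fin m → Fin d → ℤ) (n : ℤ) : Prop :=
  ∀ I S : Finset (Fin m), 1 ≤ I.card + S.card → I.card + S.card ≤ M → Sizes C E X F Z Y z' y' I S → ∀ b q a h : ℕ, 1 ≤ q →
    ((b + q * (a + h) : ℕ) : ℝ) ≤ Real.log X ^ E → Real.log X ^ (((I.card + S.card : ℕ) : ℝ) + η) ≤ h →
    -- the number of the prime points
    |(primePoints F c n I S b q a h : ℝ) - singular F c n I S b q z * (h / Real.log X ^ (I.card + S.card))| ≤
      ε * (singular F c n I S b q z * (h / Real.log X ^ (I.card + S.card))) ∧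
    -- without a fixed prime divisor there is one
    ((∀ p : ℕ, p.Prime → p ≤ z → ∃ k : ℕ, (∀ i ∈ I, ¬ (p : ℤ) ∣ value (F i) (c i) (b + q * k)) ∧
        ∀ i ∈ S, ¬ (p : ℤ) ∣ n - value (F i) (c i) (b + q * k)) →
      ∃ k : ℕ, a < k ∧ k ≤ a + h ∧ (∀ i ∈ I, (value (F i) (c i) (b + q * k)).toNat.Prime) ∧
        ∀ i ∈ S, (n - value (F i) (c i) (b + q * k)).toNat.Prime)

open Pool.Agent.Q236.RP Pool.Agent.Q236.LG Pool.Agent.Q236.CG
open Pool.Agent.Q236.MR (pv)

/-- the linear part of the forms `P_i`, `i ∈ I`, `n - P_i`, `i ∈ S` -/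
noncomputable def sm {m : ℕ} (I S : Finset (Fin m)) : Fin (I.card + S.card) → Fin m → ℤ :=
  Fin.append (fun t => Pi.single (I.orderEmbOfFin rfl t) 1) (fun t => Pi.single (S.orderEmbOfFin rfl t) (-1))

/-- the coefficients of `n` -/
noncomputable def gm {m : ℕ} (I S : Finset (Fin m)) : Fin (I.card + S.card) → Fin 1 → ℤ :=
  Fin.append (fun _ _ => 0) (fun _ _ => 1)

lemma sum_single {m : ℕ} (i : Fin m) (x : ℤ) (v : Fin m → ℤ) : ∑ j, (Pi.single i x : Fin m → ℤ) j * v j = x * v i := by
  rw [Finset.sum_eq_single i]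
  · rw [Pi.single_eq_same]
  · intro j _ hj
    rw [Pi.single_eq_of_ne hj, zero_mul]
  · intro h
    exact absurd (mem_univ i) h

lemma fvl_left {m d : ℕ} (F : Fin m → Polynomial ℤ) (c : Fin m → Fin d → ℤ) (n : ℤ) (I S : Finset (Fin m)) (k : ℕ)
    (t : Fin I.card) : fvl F c (fun _ => n) (sm I S) (gm I S) (fun _ => 0) k (Fin.castAdd S.card t) =
      value (F (I.orderEmbOfFin rfl t)) (c (I.orderEmbOfFin rfl t)) k := by
  unfold fvl sm gm
  rw [Fin.append_left, Fin.append_left, sum_single]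
  simp only [univ_unique, Fin.default_eq_zero, sum_singleton, zero_mul, add_zero, one_mul]
  rfl

lemma fvl_right {m d : ℕ} (F : Fin m → Polynomial ℤ) (c : Fin m → Fin d → ℤ) (n : ℤ) (I S : Finset (Fin m)) (k : ℕ)
    (t : Fin S.card) : fvl F c (fun _ => n) (sm I S) (gm I S) (fun _ => 0) k (Fin.natAdd I.card t) =
      n - value (F (S.orderEmbOfFin rfl t)) (c (S.orderEmbOfFin rfl t)) k := by
  unfold fvl sm gm
  rw [Fin.append_right, Fin.append_right, sum_single]
  simp only [univ_unique, Fin.default_eq_zero, sum_singleton, one_mul, add_zero]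
  have : pv F c k (S.orderEmbOfFin rfl t) = value (F (S.orderEmbOfFin rfl t)) (c (S.orderEmbOfFin rfl t)) k := rfl
  rw [this]
  ring

lemma co {m : ℕ} (I S : Finset (Fin m)) : CO (sm I S) (gm I S) := by
  intro t
  refine Fin.addCases (fun t => ?_) (fun t => ?_) t
  · obtain ⟨i, hi⟩ : ∃ i, i = I.orderEmbOfFin rfl t := ⟨_, rfl⟩
    refine ⟨Pi.single i 1, Pi.single i 1, fun _ => 1, ?_, ?_, ?_⟩
    · unfold sm
      rw [Fin.append_left, sum_single, ← hi, Pi.single_eq_same]
      norm_num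
    · unfold sm gm
      rw [Fin.append_left, Fin.append_left, sum_single, ← hi, Pi.single_eq_same]
      simp
    · intro t' ht'
      refine Fin.addCases (fun t' ht' => ?_) (fun t' ht' => ?_) t' ht'
      · left
        unfold sm
        rw [Fin.append_left, sum_single, Pi.single_eq_of_ne, mul_zero]
        intro h
        apply ht'
        rw [hi] at h
        rw [(I.orderEmbOfFin rfl).injective h]
      · by_cases h : S.orderEmbOfFin rfl t' = i
        · right
          unfold sm gm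
          rw [Fin.append_right, Fin.append_right, sum_single, h, Pi.single_eq_same]
          simp
        · left
          unfold sm
          rw [Fin.append_right, sum_single, Pi.single_eq_of_ne h, mul_zero]
  · obtain ⟨i, hi⟩ : ∃ i, i = S.orderEmbOfFin rfl t := ⟨_, rfl⟩
    refine ⟨Pi.single i 1, fun _ => 0, fun _ => 1, ?_, ?_, ?_⟩
    · unfold sm
      rw [Fin.append_right, sum_single, ← hi, Pi.single_eq_same]
      norm_num
    · unfold sm gm
      rw [Fin.append_right, Fin.append_right, sum_single]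
      simp
    · intro t' ht'
      refine Fin.addCases (fun t' ht' => ?_) (fun t' ht' => ?_) t' ht'
      · right
        unfold sm gm
        rw [Fin.append_left, Fin.append_left, sum_single]
        simp
      · left
        unfold sm
        rw [Fin.append_right, sum_single, Pi.single_eq_of_ne, mul_zero]
        intro h
        apply ht'
        rw [hi] at h
        rw [(S.orderEmbOfFin rfl).injective h]

lemma points_eq {m d : ℕ} (F : Fin m → Polynomial ℤ) (c : Fin m → Fin d → ℤ) (n : ℤ) (I S : Finset (Fin m)) (b q a h : ℕ) :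
    cntL F c (fun _ => n) (sm I S) (gm I S) (fun _ => 0) b q a h = primePoints F c n I S b q a h := by
  classical
  unfold cntL primePoints
  congr 1
  ext k
  simp only [mem_filter]
  apply and_congr_right
  intro _
  exact forall_append (n := 0) I S (fun i => (value (F i) (c i) (b + q * k)).toNat.Prime)
    (fun i => (n - value (F i) (c i) (b + q * k)).toNat.Prime) _ (fun t => by rw [fvl_left]) (fun t => by rw [fvl_right]) rfl

lemma nodiv_eq {m d : ℕ} (F : Fin m → Polynomial ℤ) (c : Fin m → Fin d → ℤ) (n : ℤ) (I S : Finset (Fin m)) (p k : ℕ) :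
    (∀ t, ¬ (p : ℤ) ∣ fvl F c (fun _ => n) (sm I S) (gm I S) (fun _ => 0) k t) ↔
      (∀ i ∈ I, ¬ (p : ℤ) ∣ value (F i) (c i) k) ∧ ∀ i ∈ S, ¬ (p : ℤ) ∣ n - value (F i) (c i) k :=
  forall_append (n := 0) I S (fun i => ¬ (p : ℤ) ∣ value (F i) (c i) k)
    (fun i => ¬ (p : ℤ) ∣ n - value (F i) (c i) k) _ (fun t => by rw [fvl_left]) (fun t => by rw [fvl_right]) rfl

lemma singular_eq {m d : ℕ} (F : Fin m → Polynomial ℤ) (c : Fin m → Fin d → ℤ) (n : ℤ) (I S : Finset (Fin m)) (b q z : ℕ) :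
    sgL F c (fun _ => n) (sm I S) (gm I S) (fun _ => 0) b q z = singular F c n I S b q z := by
  classical
  unfold sgL singular
  apply Finset.prod_congr rfl
  intro p _
  congr 4
  unfold omL omega
  congr 1
  ext k
  simp only [mem_filter]
  apply and_congr_right
  intro _
  have h := nodiv_eq F c n I S p (b + q * k)
  have h1 := not_congr h
  push Not at h1
  rw [h1]
  constructor
  · intro h
    by_cases h' : ∃ i ∈ I, (p : ℤ) ∣ value (F i) (c i) (b + q * k)
    · exact Or.inl h'
    · push Not at h'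
      exact Or.inr (h h')
  · rintro (⟨i, hi, h⟩ | h) h'
    · exact absurd h (h' i hi)
    · exact h

lemma norm_sm {m : ℕ} (I S : Finset (Fin m)) (t : Fin (I.card + S.card)) (i : Fin m) : |sm I S t i| ≤ (1 : ℕ) := by
  refine Fin.addCases (fun t => ?_) (fun t => ?_) t
  · unfold sm
    rw [Fin.append_left, Pi.single_apply]
    split_ifs <;> simp
  · unfold sm
    rw [Fin.append_right, Pi.single_apply]
    split_ifs <;> simp

lemma norm_gm {m : ℕ} (I S : Finset (Fin m)) (t : Fin (I.card + S.card)) (j : Fin 1) : |gm I S t j| ≤ (1 : ℕ) := by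
  refine Fin.addCases (fun t => ?_) (fun t => ?_) t
  · unfold gm
    rw [Fin.append_left]
    simp
  · unfold gm
    rw [Fin.append_right]
    simp

lemma supp_sm {m : ℕ} (I S : Finset (Fin m)) (t : Fin (I.card + S.card)) (i : Fin m) (hi : i ∉ I ∪ S) : sm I S t i = 0 := by
  rw [mem_union, not_or] at hi
  refine Fin.addCases (fun t => ?_) (fun t => ?_) t
  · unfold sm
    rw [Fin.append_left, Pi.single_eq_of_ne]
    rintro rfl
    exact hi.1 (Finset.orderEmbOfFin_mem I rfl t)
  · unfold sm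
    rw [Fin.append_right, Pi.single_eq_of_ne]
    rintro rfl
    exact hi.2 (Finset.orderEmbOfFin_mem S rfl t)

open Classical in
/-- **Goldbach's conjecture with the summands in short pieces of almost all polynomial sequences, for almost all
integers.** -/
theorem result (M B E : ℕ) (η : ℝ) (hη : 0 < η) : ∃ d₀ : ℕ, ∀ C d : ℕ, d₀ ≤ d → ∃ A₀ : ℕ, ∀ (A D : ℕ) (ε : ℝ),
    0 < ε → ∃ X₀ : ℕ, ∀ X, X₀ ≤ X → ∀ z : ℕ, Real.log X ^ A₀ ≤ z → (z : ℝ) ≤ Real.log X ^ A →
    ∀ m : ℕ, (m : ℝ) ≤ Real.log X ^ E →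
    ∀ (F : Fin m → Polynomial ℤ) (Z : Fin m → Fin d → ℤ) (Y : Fin m → Fin d → ℕ) (z' : ℤ) (y' : ℕ),
    (∀ i, (F i).natDegree ≤ D) → (∀ i j, (X : ℝ) / Real.log X ^ C ≤ Y i j) → (X : ℝ) / Real.log X ^ C ≤ y' →
    (((Arrays Z Y).filter (fun c => (y' : ℝ) / Real.log X ^ B <
      ((Ioc z' (z' + y')).filter (fun n => ¬ Regular M C E η ε z X F Z Y z' y' c n)).card)).card : ℝ) ≤
      (Arrays Z Y).card / Real.log X ^ B := by
  obtain ⟨d0, hd0⟩ := all_lin M 1 1 (B + B) E η hη
  refine ⟨d0, ?_⟩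
  intro C d hd
  obtain ⟨A0, hA0⟩ := hd0 C d hd
  refine ⟨A0, ?_⟩
  intro A D ε hε
  obtain ⟨X0, hX0⟩ := eventually_atTop.1 ((hA0 A D (min ε (1 / 2)) (by positivity)).and ((ev_log_ge 1).and (ev_pow_log 1)))
  refine ⟨X0, ?_⟩
  intro X hX z hz1 hz2 m hm F Z Y z' y' hF hS hy'
  obtain ⟨h1, hL, hP⟩ := hX0 X hX
  have hL0 : 0 < Real.log (X : ℝ) := by linarith
  have hR : ((({0} : Finset ℤ).card : ℕ) : ℝ) ≤ Real.log X ^ E := by
    rw [card_singleton, Nat.cast_one]
    exact one_le_pow₀ hL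
  have h2 := h1 z hz1 hz2 m hm {0} hR F Z Y (fun _ : Fin 1 => z') (fun _ : Fin 1 => y') hF hS (fun _ => hy')
  have hcb : (Box (fun _ : Fin 1 => z') (fun _ : Fin 1 => y')).card = (Ioc z' (z' + y')).card := by
    rw [card_Box]
    simp
  have hcard : ((Ioc z' (z' + y')).card : ℝ) = y' := by
    rw [Int.card_Ioc]
    simp
  have hpair : (((Arrays Z Y ×ˢ Ioc z' (z' + y')).filter (fun ω => ¬ Regular M C E η ε z X F Z Y z' y' ω.1 ω.2)).card : ℝ) ≤
      ((Arrays Z Y ×ˢ Ioc z' (z' + y')).card : ℝ) / (Real.log X ^ B * Real.log X ^ B) := by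
    rw [← pow_add, card_product, ← hcb, ← card_product]
    have hAr : Arrays Z Y = BA Z Y := rfl
    rw [hAr]
    refine le_trans ?_ h2
    rw [← hAr]
    have hinj : ((Arrays Z Y ×ˢ Ioc z' (z' + y')).filter (fun ω => ¬ Regular M C E η ε z X F Z Y z' y' ω.1 ω.2)).card ≤
        ((BA Z Y ×ˢ Box (fun _ : Fin 1 => z') (fun _ : Fin 1 => y')).filter (fun ω =>
        ∃ (J : Finset (Fin m)) (e : ℕ) (s : Fin e → Fin m → ℤ) (g : Fin e → Fin 1 → ℤ)
        (r : Fin e → ℤ), J.card ≤ M ∧ 1 ≤ e ∧ e ≤ M ∧ (∀ t i, |s t i| ≤ (1 : ℕ)) ∧ (∀ t j, |g t j| ≤ (1 : ℕ)) ∧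
        (∀ t, ∀ i, i ∉ J → s t i = 0) ∧ (∀ t, r t ∈ ({0} : Finset ℤ)) ∧ CO s g ∧
        (∀ c ∈ BA Z Y, ∀ N' ∈ Box (fun _ : Fin 1 => z') (fun _ : Fin 1 => y'), ∀ k : ℕ, 1 ≤ k → (k : ℝ) ≤ Real.log X ^ E → ∀ t,
          (X : ℝ) / Real.log X ^ C ≤ fvl F c N' s g r k t ∧ (fvl F c N' s g r k t : ℝ) ≤ X * Real.log X ^ C) ∧
        ∃ b q a h : ℕ, 1 ≤ q ∧ ((b + q * (a + h) : ℕ) : ℝ) ≤ Real.log X ^ E ∧ Real.log X ^ ((e : ℝ) + η) ≤ h ∧
        ¬ |(cntL F ω.1 ω.2 s g r b q a h : ℝ) - sgL F ω.1 ω.2 s g r b q z * (h / Real.log X ^ e)| ≤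
          min ε (1 / 2) * (sgL F ω.1 ω.2 s g r b q z * (h / Real.log X ^ e)))).card := by
      apply card_le_card_of_injOn (fun ω => (ω.1, fun _ => ω.2))
      · intro ω hω
        simp only [coe_filter, Set.mem_setOf_eq, mem_product] at hω ⊢
        obtain ⟨⟨hω1, hω2⟩, hω3⟩ := hω
        refine ⟨⟨hω1, ?_⟩, ?_⟩
        · rw [mem_Box]
          intro _
          rw [mem_Ioc] at hω2
          exact hω2
        by_contra hno
        push Not at hno
        apply hω3
        intro I S hIS1 hIS hsize b q a h hq hbq hh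
        have h3 := hno (I ∪ S) (I.card + S.card) (sm I S) (gm I S) (fun _ => 0) ((card_union_le I S).trans hIS) hIS1 hIS
          (norm_sm I S) (norm_gm I S) (fun t i hi => supp_sm I S t i hi) (fun _ => mem_singleton_self 0) (co I S) (by
            intro c' hc' N' hN' k hk1 hk2
            have hN0 : N' = fun _ => N' 0 := by
              funext j
              rw [Subsingleton.elim j 0]
            have hN1 : N' 0 ∈ Ioc z' (z' + y') := by
              rw [mem_Ioc]
              exact (mem_Box _ _ _).1 hN' 0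
            rw [hN0]
            have hz := hsize c' hc' (N' 0) hN1 k hk1 hk2
            refine (forall_append (n := 0) I S (fun i => (X : ℝ) / Real.log X ^ C ≤ value (F i) (c' i) k ∧
              (value (F i) (c' i) k : ℝ) ≤ X * Real.log X ^ C) (fun i => (X : ℝ) / Real.log X ^ C ≤ (N' 0 - value (F i) (c' i) k : ℤ) ∧
              ((N' 0 - value (F i) (c' i) k : ℤ) : ℝ) ≤ X * Real.log X ^ C) _ (fun t => by rw [fvl_left]) (fun t => by rw [fvl_right])
              rfl).2 hz) b q a h hq hbq hh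
        have h4 := concl hL0 hε F ω.1 (fun _ => ω.2) (sm I S) (gm I S) (fun _ => 0) b q a h z hh h3
        rw [points_eq, singular_eq] at h4
        refine ⟨h4.1, ?_⟩
        intro hadm
        obtain ⟨k, hk1, hk2, hk3⟩ := h4.2 (by
          intro p hp hpz
          obtain ⟨k, hk⟩ := hadm p hp hpz
          exact ⟨k, (nodiv_eq F ω.1 ω.2 I S p (b + q * k)).2 hk⟩)
        refine ⟨k, hk1, hk2, ?_⟩
        exact (forall_append (n := 0) I S (fun i => (value (F i) (ω.1 i) (b + q * k)).toNat.Prime)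
          (fun i => (ω.2 - value (F i) (ω.1 i) (b + q * k)).toNat.Prime) _ (fun t => by rw [fvl_left]) (fun t => by rw [fvl_right])
          rfl).1 hk3
      · rintro ⟨c, n⟩ _ ⟨c', n'⟩ _ h
        have h5 := (Prod.mk.inj h).1
        have h6 := congrFun (Prod.mk.inj h).2 0
        simp only at h5 h6
        rw [h5, h6]
    exact_mod_cast hinj
  have h3 := fub (Arrays Z Y) (Ioc z' (z' + y')) (fun c n => ¬ Regular M C E η ε z X F Z Y z' y' c n) (Real.log X ^ B)
    (pow_pos hL0 B) (by convert hpair)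
  rw [hcard] at h3
  convert h3

end Pool.Agent.Results.MP_7b7e48_nt.PolynomialSummands
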