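import Pool.Agent.Q259.PK.Low
import Pool.Agent.Q259.PK.Upp

/-!
# Sums of two distinct primes from a dense set and a thin set: the sharp law

Let `P x` be the set of the primes up to `x`. Let `A, B ⊆ P x` have relative densities at least `α ≥ δ`
and at least `β`, where `β` may be as small as a negative power of `log x`. If `β ≤ β₀` then at least

`(1 - ε) α x / (e ^ γ log log (1 / β))`

of the even numbers `2 n`, `n ≤ x`, are sums `p + q` of distinct primes `p ∈ A`, `q ∈ B`, and each of
them in at least `c |B| / log x` ways. Moreover the number is best possible for all `x`, `α`, `β` in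
this range: there are sets `A, B` with the given densities with at most
`(1 + ε) α x / (e ^ γ log log (1 / β))` sums altogether.

For fixed `β` this is a theorem of Matomäki (order of magnitude: Ramaré and Ruzsa). The transference
principle used there lets `β` tend to `0` only very slowly. Here the high moments of the number
of representations are computed instead: the first prime is replaced by its sieve model in mean over
`n` for every fixed set `B` (Vinogradov's bilinear sums), and in the moments of the model only the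
differences of pairs of elements of `B` with many prime factors below `C log (1 / β)` matter, which are
bounded by a sieve for all sets of primes `B` of relative density `β`.
-/

set_option autoImplicit false

namespace Pool.Agent.Results.MP_7b7e48_nt.SharpSumsOfPrimeSubsets

open Finset

/-- the primes up to `x` -/
def P (x : ℕ) : Finset ℕ := (Icc 1 x).filter Nat.Prime

/-- the number of representations `2 * n = p + q`, `p ∈ A`, `q ∈ B`, `p ≠ q` -/
def reps (A B : Finset ℕ) (n : ℕ) : ℕ :=
  ((A ×ˢ B).filter (fun r => r.1 ≠ r.2 ∧ r.1 + r.2 = 2 * n)).card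

lemma P_eq (x : ℕ) : P x = Pool.Agent.H373R2.T7.pz x := by
  ext p
  rw [P, Pool.Agent.H373R2.T7.mem_pz, mem_filter, mem_Icc]
  constructor
  · rintro ⟨⟨_, h1⟩, h2⟩
    exact ⟨h1, h2⟩
  · rintro ⟨h1, h2⟩
    exact ⟨⟨h2.one_le, h1⟩, h2⟩

lemma rep_odd {A B : Finset ℕ} {x N : ℕ} (hA : A ⊆ P x) (hB : B ⊆ P x) (hN : ¬ Even N) :
    Pool.Agent.Q259.PK.rep A B N ≤ 2 := by
  unfold Pool.Agent.Q259.PK.rep
  have hsub : (A ×ˢ B).filter (fun r => r.1 + r.2 = N ∧ r.1 ≠ r.2) ⊆ {(2, N - 2), (N - 2, 2)} := by
    intro r hr
    rw [mem_filter, mem_product] at hr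
    have h1 := (mem_filter.1 (hA hr.1.1)).2
    have h2 := (mem_filter.1 (hB hr.1.2)).2
    rw [mem_insert, mem_singleton]
    rcases h1.eq_two_or_odd' with h3 | h3
    · left
      exact Prod.ext h3 (by simp only; omega)
    · rcases h2.eq_two_or_odd' with h4 | h4
      · right
        exact Prod.ext (by simp only; omega) h4
      · exfalso
        apply hN
        rw [← hr.2.1]
        exact h3.add_odd h4
  exact (card_le_card hsub).trans (card_insert_le _ _)

lemma rep_two (A B : Finset ℕ) (n : ℕ) :
    Pool.Agent.Q259.PK.rep A B (2 * n) = reps A B n := by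
  unfold Pool.Agent.Q259.PK.rep reps
  congr 1
  apply filter_congr
  intro r _
  exact and_comm

/-- **The sharp law.** Part 1: many sums. Part 2: examples with few sums. -/
theorem result (a : ℕ) (δ ε : ℝ) (hδ : 0 < δ) (hε : 0 < ε) :
    (∃ c : ℝ, 0 < c ∧ ∃ β₀ : ℝ, 0 < β₀ ∧ ∃ x₀ : ℕ, ∀ x : ℕ, x₀ ≤ x → ∀ α β : ℝ, δ ≤ α → β ≤ β₀ →
      1 / Real.log x ^ a ≤ β → ∀ A B : Finset ℕ, A ⊆ P x → B ⊆ P x →
      α * (P x).card ≤ A.card → β * (P x).card ≤ B.card →
      (1 - ε) * (α * x / (Real.exp Real.eulerMascheroniConstant * Real.log (Real.log (1 / β)))) ≤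
        (((Icc 1 x).filter (fun n => c * B.card / Real.log x ≤ (reps A B n : ℝ))).card : ℝ)) ∧
    (∃ β₁ : ℝ, 0 < β₁ ∧ ∃ x₁ : ℕ, ∀ x : ℕ, x₁ ≤ x → ∀ α β : ℝ, δ ≤ α → α ≤ 1 → β ≤ β₁ →
      1 / Real.log x ^ a ≤ β → ∃ A B : Finset ℕ, A ⊆ P x ∧ B ⊆ P x ∧
      α * (P x).card ≤ A.card ∧ β * (P x).card ≤ B.card ∧
      (((A ×ˢ B).image (fun r => r.1 + r.2)).card : ℝ) ≤
        (1 + ε) * (α * x / (Real.exp Real.eulerMascheroniConstant * Real.log (Real.log (1 / β))))) := by
  have hδ' : 0 < min δ 1 := lt_min hδ one_pos
  have hε' : 0 < min ε 1 := lt_min hε one_pos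
  -- the translation from `β` to `y = log (1 / β)`
  have key : ∀ (x : ℕ) (β : ℝ), 3 ≤ x → 1 / Real.log x ^ a ≤ β →
      0 < β ∧ Real.exp (-Real.log (1 / β)) = β ∧
      Real.log (1 / β) ≤ a * Real.log (Real.log x) := by
    intro x β hx hβ
    have hL : 0 < Real.log x := Real.log_pos (by exact_mod_cast (show 1 < x by omega))
    have hβ0 : 0 < β := lt_of_lt_of_le (by positivity) hβ
    refine ⟨hβ0, ?_, ?_⟩
    · rw [← Real.log_inv, one_div, inv_inv, Real.exp_log hβ0]
    · rw [← Real.log_pow]
      apply Real.log_le_log (by positivity)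
      rw [one_div_le hβ0 (by positivity)]
      exact hβ
  have hlarge : ∀ y0 β : ℝ, 0 < β → β ≤ Real.exp (-y0) → y0 ≤ Real.log (1 / β) := by
    intro y0 β hβ0 hβ
    rw [one_div, Real.log_inv]
    have := Real.log_le_log hβ0 hβ
    rw [Real.log_exp] at this
    linarith
  have hform : ∀ α x t : ℝ, α * x * (Real.exp (-Real.eulerMascheroniConstant) / t) =
      α * x / (Real.exp Real.eulerMascheroniConstant * t) := by
    intro α x t
    rw [Real.exp_neg]
    ring
  constructor
  · obtain ⟨c, hc, y0, hy0, x0, h0⟩ := Pool.Agent.Q259.PK.lower a (min δ 1) (min ε 1) hδ'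
      (min_le_right _ _) hε' (min_le_right _ _)
    obtain ⟨x1, h1⟩ := Pool.Agent.Q259.PK.pnt (1 / 2) (by norm_num)
    obtain ⟨x2, h2⟩ := Pool.Agent.Q259.PK.log_pow_small (6 / c) (a + 2)
    refine ⟨c, hc, Real.exp (-y0), Real.exp_pos _, x0 + x1 + x2 + 3, ?_⟩
    intro x hx α β hα hβ hβx A B hA hB hAc hBc
    obtain ⟨hβ0, hβe, hβl⟩ := key x β (by omega) hβx
    have hL : 0 < Real.log x := Real.log_pos (by exact_mod_cast (show 1 < x by omega))
    have hx0 : (0 : ℝ) < x := by exact_mod_cast (show 0 < x by omega)
    have hy := hlarge y0 β hβ0 hβ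
    rw [P_eq] at hA hB hAc hBc
    have hmain := h0 x (by omega) A B α (Real.log (1 / β)) hA hB ((min_le_left _ _).trans hα) hAc hy
      hβl (by rw [hβe]; exact hBc)
    rw [hform] at hmain
    have hα0 : 0 < α := lt_of_lt_of_le hδ hα
    have hll : 0 ≤ Real.log (Real.log (1 / β)) := Real.log_nonneg (by linarith)
    have h3 : (1 - ε) * (α * x / (Real.exp Real.eulerMascheroniConstant *
        Real.log (Real.log (1 / β)))) ≤ (1 - min ε 1) * (α * x /
        (Real.exp Real.eulerMascheroniConstant * Real.log (Real.log (1 / β)))) := by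
      apply mul_le_mul_of_nonneg_right _ (by positivity)
      linarith [min_le_left ε 1]
    refine h3.trans (hmain.trans ?_)
    -- the numbers with many representations are even
    have hbig : 2 < c * B.card / Real.log x := by
      have h4 := (h1 x (by omega)).1
      have h5 := h2 x (by omega)
      have h6 : Real.sqrt x ≤ x := by
        rw [Real.sqrt_le_left hx0.le]
        have : (1 : ℝ) ≤ x := by exact_mod_cast (show 1 ≤ x by omega)
        nlinarith
      rw [lt_div_iff₀ hL]
      have h7 : 1 / Real.log x ^ a * ((1 - 1 / 2) * (x / Real.log x)) ≤ B.card := by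
        refine le_trans ?_ hBc
        apply mul_le_mul hβx h4 (by positivity) hβ0.le
      have h8 : 3 * Real.log x ≤ c * (1 / Real.log x ^ a * ((1 - 1 / 2) * (x / Real.log x))) := by
        have h9 : 6 / c * Real.log x ^ (a + 2) ≤ x := h5.trans h6
        have h10 : c * (1 / Real.log x ^ a * ((1 - 1 / 2) * (x / Real.log x))) =
            c / (2 * Real.log x ^ (a + 1)) * x := by
          field_simp
          ring
        rw [h10]
        calc 3 * Real.log x = c / (2 * Real.log x ^ (a + 1)) * (6 / c * Real.log x ^ (a + 2)) := by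
              field_simp
              ring
          _ ≤ _ := mul_le_mul_of_nonneg_left h9 (by positivity)
      have h9 : c * (1 / Real.log x ^ a * ((1 - 1 / 2) * (x / Real.log x))) ≤ c * B.card :=
        mul_le_mul_of_nonneg_left h7 hc.le
      linarith
    have hcard : ((Icc 1 (2 * x)).filter (fun N => c * B.card / Real.log x ≤
        (Pool.Agent.Q259.PK.rep A B N : ℝ))).card ≤
        ((Icc 1 x).filter (fun n => c * B.card / Real.log x ≤ (reps A B n : ℝ))).card := by
      apply card_le_card_of_injOn (fun N => N / 2)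
      · intro N hN
        rw [mem_coe, mem_filter, mem_Icc] at hN
        have hev : Even N := by
          by_contra hodd
          rw [← P_eq] at hA hB
          have h4 := rep_odd hA hB hodd
          have h5 : (Pool.Agent.Q259.PK.rep A B N : ℝ) ≤ 2 := by exact_mod_cast h4
          linarith [hN.2]
        obtain ⟨n, rfl⟩ := hev
        have hn : (n + n) / 2 = n := by omega
        simp only [hn]
        rw [mem_coe, mem_filter, mem_Icc, ← rep_two]
        refine ⟨by omega, ?_⟩
        rw [two_mul]
        exact hN.2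
      · intro N hN N' hN' he
        have hev : ∀ M ∈ (Icc 1 (2 * x)).filter (fun N => c * B.card / Real.log x ≤
            (Pool.Agent.Q259.PK.rep A B N : ℝ)), Even M := by
          intro M hM
          rw [mem_filter] at hM
          by_contra hodd
          rw [← P_eq] at hA hB
          have h4 := rep_odd hA hB hodd
          have h5 : (Pool.Agent.Q259.PK.rep A B M : ℝ) ≤ 2 := by exact_mod_cast h4
          linarith [hM.2]
        have h4 := hev N (mem_coe.1 hN)
        have h5 := hev N' (mem_coe.1 hN')
        simp only at he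
        rw [Nat.even_iff] at h4 h5
        omega
    exact_mod_cast hcard
  · obtain ⟨y0, hy0, x0, h0⟩ := Pool.Agent.Q259.PK.upper a (min δ 1) (min ε 1) hδ'
      (min_le_right _ _) hε' (min_le_right _ _)
    refine ⟨Real.exp (-y0), Real.exp_pos _, x0 + 3, ?_⟩
    intro x hx α β hα hα1 hβ hβx
    obtain ⟨hβ0, hβe, hβl⟩ := key x β (by omega) hβx
    have hy := hlarge y0 β hβ0 hβ
    obtain ⟨A, B, hA, hB, hAc, hBc, hs⟩ := h0 x (by omega) α (Real.log (1 / β))
      ((min_le_left _ _).trans hα) hα1 hy hβl
    rw [hβe] at hBc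
    rw [hform] at hs
    rw [P_eq]
    refine ⟨A, B, hA, hB, hAc, hBc, hs.trans ?_⟩
    have hα0 : 0 < α := lt_of_lt_of_le hδ hα
    have hll : 0 ≤ Real.log (Real.log (1 / β)) := Real.log_nonneg (by linarith)
    apply mul_le_mul_of_nonneg_right _ (by positivity)
    linarith [min_le_left ε 1]

end Pool.Agent.Results.MP_7b7e48_nt.SharpSumsOfPrimeSubsets
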